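import Pool.Agent.N101.CB.StmI
import Pool.Agent.N101.CB.Red

/-!
# Ideals in normal form: the reduction
-/

set_option autoImplicit false

namespace Pool.Agent.L5helper37.QI

open MvPolynomial Pool.Agent.N101.CB

section
variable {K : Type} [Field K] {n r : ℕ}

/-- a polynomial of degree at most one, or a binomial `x_k - x_i x_j` with `i`, `j`, `k` distinct -/
def NfG (p : MvPolynomial (Fin n) K) : Prop :=
  p.totalDegree ≤ 1 ∨ ∃ i j k : Fin n, i ≠ j ∧ k ≠ i ∧ k ≠ j ∧ p = X k - X i * X j

/-- generators of degree at most one and binomials `x_k - x_i x_j` -/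
def Nf (f : Fin r → MvPolynomial (Fin n) K) : Prop := ∀ j, NfG (f j)

/-- the weight of an exponent -/
def wt (m : Fin n →₀ ℕ) : ℕ := ((∑ i, m i) - 1) + ∑ i, (m i - 1)

/-- an exponent in the old variables -/
noncomputable def E (m : Fin n →₀ ℕ) : Fin (n + 1) →₀ ℕ := m.mapDomain Fin.castSucc

/-- an exponent in the new variables -/
noncomputable def G (m : Fin n →₀ ℕ) (q : ℕ) : Fin (n + 1) →₀ ℕ :=
  E m + Finsupp.single (Fin.last n) q

theorem E_c (m : Fin n →₀ ℕ) (i : Fin n) : E m (Fin.castSucc i) = m i :=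
  Finsupp.mapDomain_apply (Fin.castSucc_injective n) _ _

theorem E_l (m : Fin n →₀ ℕ) : E m (Fin.last n) = 0 := by
  refine Finsupp.mapDomain_of_notMem_range _ _ ?_
  rintro ⟨i, hi⟩
  exact (Fin.castSucc_lt_last i).ne hi

theorem G_c (m : Fin n →₀ ℕ) (q : ℕ) (i : Fin n) : G m q (Fin.castSucc i) = m i := by
  unfold G
  rw [Finsupp.add_apply, E_c, Finsupp.single_apply, if_neg (Fin.castSucc_lt_last i).ne', add_zero]

theorem G_l (m : Fin n →₀ ℕ) (q : ℕ) : G m q (Fin.last n) = q := by
  unfold G
  rw [Finsupp.add_apply, E_l, Finsupp.single_eq_same, zero_add]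

theorem wt_G (m : Fin n →₀ ℕ) (q : ℕ) :
    wt (G m q) = ((∑ i, m i) + q - 1) + (∑ i, (m i - 1) + (q - 1)) := by
  unfold wt
  rw [Fin.sum_univ_castSucc, Fin.sum_univ_castSucc]
  simp only [G_c, G_l]

theorem E_eq (m : Fin n →₀ ℕ) : E m = G m 0 := by
  unfold G
  rw [Finsupp.single_zero, add_zero]

theorem E_inj : Function.Injective (E : (Fin n →₀ ℕ) → (Fin (n + 1) →₀ ℕ)) :=
  Finsupp.mapDomain_injective (Fin.castSucc_injective n)

theorem wt_E (m : Fin n →₀ ℕ) : wt (E m) = wt m := by
  rw [E_eq, wt_G]; rfl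

theorem deg_sum (m : Fin n →₀ ℕ) : (m.sum fun _ e => e) = ∑ i, m i :=
  Finsupp.sum_fintype _ _ (fun _ => rfl)

theorem exists_of_not {p : MvPolynomial (Fin n) K} (h : ¬ NfG p) : ∃ m ∈ p.support, wt m ≠ 0 := by
  by_contra hcon
  push Not at hcon
  apply h
  left
  refine Finset.sup_le fun m hm => ?_
  have h1 := hcon m hm
  have h2 := deg_sum m
  unfold wt at h1
  simp only [Finsupp.sum] at h2 ⊢
  omega

theorem rename_NfG {p : MvPolynomial (Fin n) K} (h : NfG p) :
    NfG (rename Fin.castSucc p) := by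
  rcases h with h | ⟨i, j, k, h1, h2, h3, rfl⟩
  · left
    exact (totalDegree_rename_le _ p).trans h
  · right
    refine ⟨i.castSucc, j.castSucc, k.castSucc, ?_, ?_, ?_, ?_⟩
    · exact fun h => h1 (Fin.castSucc_injective n h)
    · exact fun h => h2 (Fin.castSucc_injective n h)
    · exact fun h => h3 (Fin.castSucc_injective n h)
    · rw [map_sub, map_mul, rename_X, rename_X, rename_X]

/-- the choice of the divisor -/
theorem choice (m : Fin n →₀ ℕ) (h : wt m ≠ 0) : ∃ a : Fin n →₀ ℕ, a ≤ m ∧
    ((∃ i, a = Finsupp.single i 1) ∨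
      ∃ i j, i ≠ j ∧ a = Finsupp.single i 1 + Finsupp.single j 1) ∧
    wt (G (m - a) 1) < wt m := by
  classical
  by_cases h1 : ∃ i, 2 ≤ m i
  · obtain ⟨i, hi⟩ := h1
    have hle : Finsupp.single i 1 ≤ m := by
      rw [Finsupp.single_le_iff]; omega
    have hsum : ∑ j, (Finsupp.single i 1 : Fin n →₀ ℕ) j = 1 := by
      simp [Finsupp.single_apply]
    have e1 : ∑ j, (m - Finsupp.single i 1 : Fin n →₀ ℕ) j +
        ∑ j, (Finsupp.single i 1 : Fin n →₀ ℕ) j = ∑ j, m j := by
      rw [← Finset.sum_add_distrib]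
      refine Finset.sum_congr rfl fun j _ => ?_
      have := hle j
      rw [Finsupp.tsub_apply]; omega
    rw [hsum] at e1
    have e2 : ∑ j, ((m - Finsupp.single i 1 : Fin n →₀ ℕ) j - 1) < ∑ j, (m j - 1) := by
      refine Finset.sum_lt_sum (fun j _ => ?_) ⟨i, Finset.mem_univ _, ?_⟩
      · rw [Finsupp.tsub_apply]; omega
      · rw [Finsupp.tsub_apply, Finsupp.single_eq_same]; omega
    refine ⟨Finsupp.single i 1, hle, Or.inl ⟨i, rfl⟩, ?_⟩
    rw [wt_G]
    unfold wt
    omega
  · push Not at h1
    have h1' : ∀ i, m i ≤ 1 := fun i => by have := h1 i; omega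
    have h2 : ∑ i, (m i - 1) = 0 := by
      refine Finset.sum_eq_zero fun i _ => ?_
      have := h1' i
      omega
    have h3 : 2 ≤ ∑ i, m i := by
      unfold wt at h
      omega
    obtain ⟨i, hi⟩ : ∃ i, m i = 1 := by
      by_contra hne
      push Not at hne
      have : ∑ i, m i = 0 := Finset.sum_eq_zero fun i _ => by
        have := h1' i; have := hne i; omega
      omega
    obtain ⟨j, hji, hj⟩ : ∃ j, j ≠ i ∧ m j = 1 := by
      by_contra hne
      push Not at hne
      have : ∑ k, m k = m i := Finset.sum_eq_single i (fun k _ hk => by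
        have := h1' k; have := hne k hk; omega) (fun h => absurd (Finset.mem_univ _) h)
      omega
    have hav : ∀ k, (Finsupp.single i 1 + Finsupp.single j 1 : Fin n →₀ ℕ) k ≤ m k := by
      intro k
      rw [Finsupp.add_apply, Finsupp.single_apply, Finsupp.single_apply]
      by_cases hk : i = k
      · subst hk
        rw [if_pos rfl, if_neg hji, hi]
        omega
      · rw [if_neg hk]
        split_ifs with hk2
        · subst hk2; omega
        · omega
    have hsum : ∑ k, (Finsupp.single i 1 + Finsupp.single j 1 : Fin n →₀ ℕ) k = 2 := by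
      simp only [Finsupp.add_apply]
      rw [Finset.sum_add_distrib]
      simp [Finsupp.single_apply]
    have e1 : ∑ k, (m - (Finsupp.single i 1 + Finsupp.single j 1) : Fin n →₀ ℕ) k +
        ∑ k, (Finsupp.single i 1 + Finsupp.single j 1 : Fin n →₀ ℕ) k = ∑ k, m k := by
      rw [← Finset.sum_add_distrib]
      refine Finset.sum_congr rfl fun k _ => ?_
      have := hav k
      rw [Finsupp.tsub_apply]; omega
    rw [hsum] at e1
    have e2 : ∑ k, ((m - (Finsupp.single i 1 + Finsupp.single j 1) : Fin n →₀ ℕ) k - 1) = 0 := by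
      refine Finset.sum_eq_zero fun k _ => ?_
      have := h1' k
      rw [Finsupp.tsub_apply]
      omega
    refine ⟨Finsupp.single i 1 + Finsupp.single j 1, hav, Or.inr ⟨i, j, hji.symm, rfl⟩, ?_⟩
    rw [wt_G]
    unfold wt
    omega

open Classical in
/-- the weight of a generator -/
noncomputable def gw (p : MvPolynomial (Fin n) K) : ℕ :=
  if NfG p then 0 else ∑ m ∈ p.support, wt m

/-- the weight of the generators -/
noncomputable def tw (f : Fin r → MvPolynomial (Fin n) K) : ℕ := ∑ j, gw (f j)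

theorem gw_le (p : MvPolynomial (Fin n) K) : gw p ≤ ∑ m ∈ p.support, wt m := by
  unfold gw
  split_ifs
  · exact Nat.zero_le _
  · exact le_rfl

theorem gw_rename (p : MvPolynomial (Fin n) K) : gw (rename Fin.castSucc p) ≤ gw p := by
  classical
  by_cases h : NfG p
  · unfold gw
    rw [if_pos (rename_NfG h)]
    exact Nat.zero_le _
  · refine (gw_le _).trans ?_
    unfold gw
    rw [if_neg h, support_rename_of_injective (Fin.castSucc_injective n)]
    have : (Finset.image (Finsupp.mapDomain Fin.castSucc) p.support) = p.support.image E := rfl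
    rw [this, Finset.sum_image (fun a _ b _ h => E_inj h)]
    exact (Finset.sum_congr rfl fun m _ => wt_E m).le

theorem new_NfG {a : Fin n →₀ ℕ} (h : (∃ i, a = Finsupp.single i 1) ∨
      ∃ i j, i ≠ j ∧ a = Finsupp.single i 1 + Finsupp.single j 1) :
    NfG (X (Fin.last n) - rename Fin.castSucc (monomial a (1 : K))) := by
  rcases h with ⟨i, rfl⟩ | ⟨i, j, hij, rfl⟩
  · left
    change (X (Fin.last n) - rename Fin.castSucc (X i : MvPolynomial (Fin n) K)).totalDegree ≤ 1
    rw [rename_X]
    refine (totalDegree_sub _ _).trans ?_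
    rw [totalDegree_X, totalDegree_X, max_self]
  · right
    refine ⟨i.castSucc, j.castSucc, Fin.last n, fun h => hij (Fin.castSucc_injective n h),
      (Fin.castSucc_lt_last i).ne', (Fin.castSucc_lt_last j).ne', ?_⟩
    have : (monomial (Finsupp.single i 1 + Finsupp.single j 1) 1 : MvPolynomial (Fin n) K) =
        X i * X j := by
      rw [X, X, monomial_mul, one_mul]
    rw [this, map_mul, rename_X, rename_X]

theorem step_eq (p : MvPolynomial (Fin n) K) (m a : Fin n →₀ ℕ) (ham : a ≤ m) :
    rename Fin.castSucc p + rename Fin.castSucc (monomial (m - a) (coeff m p)) *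
      (X (Fin.last n) - rename Fin.castSucc (monomial a 1)) =
    rename Fin.castSucc (p - monomial m (coeff m p)) + monomial (G (m - a) 1) (coeff m p) := by
  have h3 : (monomial (G (m - a) 1) (coeff m p) : MvPolynomial (Fin (n + 1)) K) =
      rename Fin.castSucc (monomial (m - a) (coeff m p)) * X (Fin.last n) := by
    unfold G E
    rw [rename_monomial, X, monomial_mul, mul_one]
  have h4 : rename (Fin.castSucc : Fin n → Fin (n + 1)) (monomial m (coeff m p)) =
      rename Fin.castSucc (monomial (m - a) (coeff m p)) *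
        rename Fin.castSucc (monomial a (1 : K)) := by
    rw [← map_mul, monomial_mul, mul_one, tsub_add_cancel_of_le ham]
  rw [h3, map_sub, h4]
  ring

theorem step_gw (p : MvPolynomial (Fin n) K) (hp : ¬ NfG p) (m a : Fin n →₀ ℕ)
    (hm : m ∈ p.support) (ham : a ≤ m) (hw : wt (G (m - a) 1) < wt m) :
    gw (rename Fin.castSucc p + rename Fin.castSucc (monomial (m - a) (coeff m p)) *
      (X (Fin.last n) - rename Fin.castSucc (monomial a 1))) < gw p := by
  classical
  rw [step_eq p m a ham]
  have hsub : (rename Fin.castSucc (p - monomial m (coeff m p)) +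
      monomial (G (m - a) 1) (coeff m p)).support ⊆
      (p.support.erase m).image E ∪ {G (m - a) 1} := by
    refine (support_add).trans (Finset.union_subset_union ?_ support_monomial_subset)
    rw [support_rename_of_injective (Fin.castSucc_injective n)]
    refine Finset.image_subset_image ?_
    intro d hd
    rw [Finset.mem_erase]
    rw [mem_support_iff, coeff_sub, coeff_monomial] at hd
    by_cases h : m = d
    · subst h
      rw [if_pos rfl, sub_self] at hd
      exact absurd rfl hd
    · rw [if_neg h, sub_zero] at hd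
      exact ⟨fun h' => h h'.symm, mem_support_iff.2 hd⟩
  refine (gw_le _).trans_lt ?_
  have e1 : ∑ d ∈ (rename Fin.castSucc (p - monomial m (coeff m p)) +
      monomial (G (m - a) 1) (coeff m p)).support, wt d ≤
      ∑ d ∈ (p.support.erase m).image E ∪ {G (m - a) 1}, wt d :=
    Finset.sum_le_sum_of_subset hsub
  have e2 : ∑ d ∈ (p.support.erase m).image E ∪ {G (m - a) 1}, wt d ≤
      ∑ d ∈ (p.support.erase m).image E, wt d + ∑ d ∈ {G (m - a) 1}, wt d := by
    have := Finset.sum_union_inter (s₁ := (p.support.erase m).image E)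
      (s₂ := {G (m - a) 1}) (f := fun d => wt d)
    omega
  rw [Finset.sum_image (fun a _ b _ h => E_inj h), Finset.sum_singleton] at e2
  have e3 : ∑ d ∈ p.support.erase m, wt (E d) = ∑ d ∈ p.support.erase m, wt d :=
    Finset.sum_congr rfl fun m _ => wt_E m
  have e4 := Finset.sum_erase_add p.support wt hm
  unfold gw
  rw [if_neg hp]
  omega

theorem stI_c (f : Fin r → MvPolynomial (Fin n) K) (j₀ : Fin r) (u v : MvPolynomial (Fin n) K)
    (j : Fin r) : stI f j₀ u v (Fin.castSucc j) = rename Fin.castSucc (f j) + (if j = j₀ then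
      rename Fin.castSucc v * (X (Fin.last n) - rename Fin.castSucc u) else 0) := by
  unfold stI
  rw [Fin.snoc_castSucc]

theorem stI_l (f : Fin r → MvPolynomial (Fin n) K) (j₀ : Fin r) (u v : MvPolynomial (Fin n) K) :
    stI f j₀ u v (Fin.last r) = X (Fin.last n) - rename Fin.castSucc u := by
  unfold stI
  rw [Fin.snoc_last]

theorem step_tw (f : Fin r → MvPolynomial (Fin n) K) (j₀ : Fin r) (hp : ¬ NfG (f j₀))
    (m a : Fin n →₀ ℕ) (hm : m ∈ (f j₀).support) (ham : a ≤ m) (hw : wt (G (m - a) 1) < wt m)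
    (ha : (∃ i, a = Finsupp.single i 1) ∨
      ∃ i j, i ≠ j ∧ a = Finsupp.single i 1 + Finsupp.single j 1) :
    tw (stI f j₀ (monomial a 1) (monomial (m - a) (coeff m (f j₀)))) < tw f := by
  unfold tw
  rw [Fin.sum_univ_castSucc, stI_l]
  have h1 : gw (X (Fin.last n) - rename Fin.castSucc (monomial a (1 : K))) = 0 := by
    unfold gw
    rw [if_pos (new_NfG ha)]
  rw [h1, add_zero]
  refine Finset.sum_lt_sum (fun j _ => ?_) ⟨j₀, Finset.mem_univ _, ?_⟩
  · rw [stI_c]
    split_ifs with h
    · subst h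
      exact (step_gw _ hp m a hm ham hw).le
    · rw [add_zero]
      exact gw_rename _
  · rw [stI_c, if_pos rfl]
    exact step_gw _ hp m a hm ham hw

end

/-- **The reduction to the normal form.** -/
theorem chainI {K : Type} [Field K]
    (Q : ∀ {n r m s : ℕ}, (Fin r → MvPolynomial (Fin n) K) →
      (Fin s → MvPolynomial (Fin m) K) → ℕ → Prop)
    (h0 : ∀ {n r : ℕ} (f : Fin r → MvPolynomial (Fin n) K), Q f f 0)
    (h1 : ∀ {n r m s : ℕ} (f : Fin r → MvPolynomial (Fin n) K) (j₀ : Fin r)
      (u v : MvPolynomial (Fin n) K) (F : Fin s → MvPolynomial (Fin m) K) (κ : ℕ),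
      Q (stI f j₀ u v) F κ → Q f F (κ + 1)) {n r : ℕ} (f : Fin r → MvPolynomial (Fin n) K) :
    ∃ (κ m s : ℕ) (F : Fin s → MvPolynomial (Fin m) K), m = n + κ ∧ s = r + κ ∧ Nf F ∧
      Q f F κ := by
  suffices H : ∀ (N n r : ℕ) (f : Fin r → MvPolynomial (Fin n) K), tw f = N →
      ∃ (κ m s : ℕ) (F : Fin s → MvPolynomial (Fin m) K), m = n + κ ∧ s = r + κ ∧ Nf F ∧
        Q f F κ from H _ n r f rfl
  intro N
  induction N using Nat.strong_induction_on with
  | _ N ih =>
    intro n r f hN
    by_cases hf : Nf f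
    · exact ⟨0, n, r, f, rfl, rfl, hf, h0 f⟩
    · unfold Nf at hf
      push Not at hf
      obtain ⟨j₀, hj⟩ := hf
      obtain ⟨m, hm, hw⟩ := exists_of_not hj
      obtain ⟨a, ham, ha, hw'⟩ := choice m hw
      obtain ⟨κ, m', s', F, e1, e2, e3, e4⟩ := ih _
        (by rw [← hN]; exact step_tw f j₀ hj m a hm ham hw' ha) (n + 1) (r + 1)
        (stI f j₀ (monomial a 1) (monomial (m - a) (coeff m (f j₀)))) rfl
      exact ⟨κ + 1, m', s', F, by omega, by omega, e3, h1 f j₀ _ _ F κ e4⟩

end Pool.Agent.L5helper37.QI
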