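import Pool.Agent.N101.CB.StmI
import Pool.Agent.N101.CB.BG
import Pool.Agent.W366.SI.I1
import Pool.Agent.Y230.HS.Strong
import Pool.Agent.Y229.SP4
import Pool.Agent.L5helper37.QI.Red

/-!
# Ideals in normal form: the functional equation of a step
-/

set_option autoImplicit false

namespace Pool.Agent.L5helper37.QI

open MvPolynomial Pool.Agent.N101.CB
open Pool.Agent.W574.HS (univ univ_ne_zero)
open Pool.Agent.W574.SM (IsFunctionalEq)
open Pool.Agent.H628R4.TP (IsBFunction)

section
variable {n r : ℕ}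

/-- the numbering of the variables `y_j`, `t`, `x_i`, `w` -/
def nb (r n : ℕ) : Fin (r + 1) ⊕ Fin (n + 1) → Fin (r + n + 2) :=
  Sum.elim (fun j => ⟨if (j : ℕ) < r then j else r + n, by
    have := j.2; split_ifs <;> omega⟩) (fun i => ⟨if (i : ℕ) < n then r + i else r + n + 1, by
    have := i.2; split_ifs <;> omega⟩)

theorem nb_inj (r n : ℕ) : Function.Injective (nb r n) := by
  intro a b h
  have h1 := congrArg Fin.val h
  rcases a with a | a <;> rcases b with b | b <;> unfold nb at h1 <;>
    simp only [Sum.elim_inl, Sum.elim_inr] at h1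
  · congr 1
    apply Fin.ext
    have := a.2
    have := b.2
    split_ifs at h1 <;> omega
  · exfalso
    have := a.2
    have := b.2
    split_ifs at h1 <;> omega
  · exfalso
    have := a.2
    have := b.2
    split_ifs at h1 <;> omega
  · congr 1
    apply Fin.ext
    have := a.2
    have := b.2
    split_ifs at h1 <;> omega

theorem nb_bij (r n : ℕ) : Function.Bijective (nb r n) := by
  rw [Fintype.bijective_iff_injective_and_card]
  refine ⟨nb_inj r n, ?_⟩
  rw [Fintype.card_sum, Fintype.card_fin, Fintype.card_fin, Fintype.card_fin]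
  omega

/-- the numbering of the variables -/
noncomputable def ne (r n : ℕ) : Fin (r + 1) ⊕ Fin (n + 1) ≃ Fin (r + n + 2) :=
  Equiv.ofBijective (nb r n) (nb_bij r n)

theorem ne_inl_c (j : Fin r) :
    ne r n (Sum.inl (Fin.castSucc j)) = Fin.castAdd 2 (finSumFinEquiv (Sum.inl j)) := by
  apply Fin.ext
  change (nb r n (Sum.inl (Fin.castSucc j)) : ℕ) = _
  unfold nb
  simp

theorem ne_inl_l : ne r n (Sum.inl (Fin.last r)) = Fin.natAdd (r + n) 0 := by
  apply Fin.ext
  change (nb r n (Sum.inl (Fin.last r)) : ℕ) = _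
  unfold nb
  simp

theorem ne_inr_c (i : Fin n) :
    ne r n (Sum.inr (Fin.castSucc i)) = Fin.castAdd 2 (finSumFinEquiv (Sum.inr i)) := by
  apply Fin.ext
  change (nb r n (Sum.inr (Fin.castSucc i)) : ℕ) = _
  unfold nb
  simp

theorem ne_inr_l : ne r n (Sum.inr (Fin.last n)) = Fin.natAdd (r + n) 1 := by
  apply Fin.ext
  change (nb r n (Sum.inr (Fin.last n)) : ℕ) = _
  unfold nb
  simp

/-- a polynomial in `x`, in the variables `y`, `x` -/
noncomputable def up (r : ℕ) (p : MvPolynomial (Fin n) ℂ) : MvPolynomial (Fin (r + n)) ℂ :=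
  rename (fun i => finSumFinEquiv (Sum.inr i)) p

theorem ne_rename (p : MvPolynomial (Fin n) ℂ) :
    rename (ne r n) (rename Sum.inr (rename Fin.castSucc p)) =
      rename (Fin.castAdd 2) (up r p) := by
  unfold up
  rw [rename_rename, rename_rename, rename_rename]
  congr 2
  funext i
  exact ne_inr_c i

/-- the universal form, in the variables `y`, `x` -/
noncomputable def uf (f : Fin r → MvPolynomial (Fin n) ℂ) : MvPolynomial (Fin (r + n)) ℂ :=
  rename finSumFinEquiv (univ f)

theorem uf_eq (f : Fin r → MvPolynomial (Fin n) ℂ) :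
    uf f = ∑ j, X (finSumFinEquiv (Sum.inl j)) * up r (f j) := by
  unfold uf univ up
  rw [map_sum]
  refine Finset.sum_congr rfl fun j _ => ?_
  rw [map_mul, rename_X, rename_rename]
  rfl

/-- the universal form of a step -/
theorem uf_st (f : Fin r → MvPolynomial (Fin n) ℂ) (j₀ : Fin r) (u v : MvPolynomial (Fin n) ℂ) :
    rename (ne r n) (univ (stI f j₀ u v)) =
      stp (uf f) (up r u) (X (finSumFinEquiv (Sum.inl j₀)) * up r v) := by
  unfold univ stp
  rw [map_sum, Fin.sum_univ_castSucc, uf_eq, map_sum]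
  have h1 : ∀ j : Fin r, rename (ne r n) (X (Sum.inl (Fin.castSucc j)) *
      rename Sum.inr (stI f j₀ u v (Fin.castSucc j))) =
      rename (Fin.castAdd 2) (X (finSumFinEquiv (Sum.inl j)) * up r (f j)) +
        (if j = j₀ then X (Fin.castAdd 2 (finSumFinEquiv (Sum.inl j₀))) *
          rename (Fin.castAdd 2) (up r v) *
            (X (Fin.natAdd (r + n) 1) - rename (Fin.castAdd 2) (up r u)) else 0) := by
    intro j
    rw [stI_c, map_mul, rename_X, ne_inl_c, map_add, map_add, ne_rename, map_mul, rename_X]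
    split_ifs with h
    · subst h
      rw [map_mul, map_mul, ne_rename, map_sub, map_sub, ne_rename, rename_X, rename_X, ne_inr_l]
      ring
    · rw [map_zero, map_zero]
      ring
  rw [Finset.sum_congr rfl fun j _ => h1 j, Finset.sum_add_distrib,
    Finset.sum_ite_eq' Finset.univ j₀, if_pos (Finset.mem_univ _), stI_l, map_mul, rename_X,
    ne_inl_l, map_sub, map_sub, ne_rename, rename_X, rename_X, ne_inr_l, map_mul, rename_X]
  ring

theorem uf_deg (f : Fin r → MvPolynomial (Fin n) ℂ) (hf : ∃ j, f j ≠ 0) :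
    (uf f).totalDegree ≠ 0 := by
  intro h
  rw [totalDegree_eq_zero_iff_eq_C] at h
  have h1 : constantCoeff (uf f) = 0 := by
    rw [uf_eq, map_sum]
    refine Finset.sum_eq_zero fun j _ => ?_
    rw [map_mul, constantCoeff_X, zero_mul]
  rw [constantCoeff_eq] at h1
  rw [h1, map_zero] at h
  refine univ_ne_zero f hf (rename_injective _ (finSumFinEquiv (m := r) (n := n)).injective ?_)
  rw [map_zero]
  exact h

theorem bf_rename {σ τ : Type} (e : σ ≃ τ) (F : MvPolynomial σ ℂ) (b : Polynomial ℂ)
    (h : IsBFunction F b) : IsBFunction (rename e F) b := by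
  refine Pool.Agent.Y229.bfunction_equiv e.symm (rename e F) b ?_
  rw [rename_rename, Equiv.symm_comp_self, rename_id_apply]
  exact h

/-- **The functional equation of a step.** -/
theorem bf (f : Fin r → MvPolynomial (Fin n) ℂ) (j₀ : Fin r) (u v : MvPolynomial (Fin n) ℂ)
    (hf : ∃ j, f j ≠ 0) (hu : ∃ j, stI f j₀ u v j ≠ 0) (b : Polynomial ℂ)
    (hb : IsFunctionalEq f b) :
    IsFunctionalEq (stI f j₀ u v) (b.comp (Polynomial.X + 1)) := by
  classical
  have h1 : IsBFunction (uf f) ((Polynomial.X + 1) * b) :=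
    bf_rename _ _ _ (Pool.Agent.W366.SI.taskI1 f b hb)
  have h2 := (bg (uf f) (up r u) (X (finSumFinEquiv (Sum.inl j₀)) * up r v) (uf_deg f hf) _ h1).2
    b rfl
  rw [← uf_st] at h2
  have h3 := Pool.Agent.Y229.bfunction_equiv (ne r n) _ _ h2
  obtain ⟨b', h4, h5⟩ := Pool.Agent.Y230.HS.functionalEq_of_univ_strong (stI f j₀ u v) _ hu h3
  have h6 : (Polynomial.X + 1 : Polynomial ℂ) ≠ 0 := by
    intro h
    have := congrArg (Polynomial.eval 0) h
    simp at this
  rw [mul_left_cancel₀ h6 h4]
  exact h5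

end

end Pool.Agent.L5helper37.QI
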