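import Pool.Agent.N101.CB.StmI
import Pool.Agent.L5helper37.QI.Red

/-!
# Ideals in normal form: the schemes
-/

set_option autoImplicit false

namespace Pool.Agent.L5helper37.QI

open MvPolynomial Pool.Agent.N101.CB

section
variable {K : Type} [Field K] {n r : ℕ}

/-- the coordinate ring of the closed subscheme defined by the `f_j` -/
abbrev CR (f : Fin r → MvPolynomial (Fin n) K) : Type :=
  MvPolynomial (Fin n) K ⧸ Ideal.span (Set.range f)

/-- the substitution `w ↦ u` -/
noncomputable def ph (u : MvPolynomial (Fin n) K) :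
    MvPolynomial (Fin (n + 1)) K →ₐ[K] MvPolynomial (Fin n) K :=
  aeval (Fin.lastCases (motive := fun _ => MvPolynomial (Fin n) K) u (fun i => X i))

theorem ph_c (u : MvPolynomial (Fin n) K) (i : Fin n) : ph u (X (Fin.castSucc i)) = X i := by
  unfold ph
  rw [aeval_X, Fin.lastCases_castSucc]

theorem ph_l (u : MvPolynomial (Fin n) K) : ph u (X (Fin.last n)) = u := by
  unfold ph
  rw [aeval_X, Fin.lastCases_last]

theorem ph_rename (u p : MvPolynomial (Fin n) K) : ph u (rename Fin.castSucc p) = p := by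
  unfold ph
  rw [aeval_rename]
  have : ((Fin.lastCases (motive := fun _ => MvPolynomial (Fin n) K) u (fun i => X i)) ∘
      Fin.castSucc : Fin n → MvPolynomial (Fin n) K) = X := by
    funext i
    rw [Function.comp_apply, Fin.lastCases_castSucc]
  rw [this, aeval_X_left_apply]

/-- `p(x, w) - p(x, u)` is divisible by `w - u` -/
theorem ph_dvd (u : MvPolynomial (Fin n) K) (p : MvPolynomial (Fin (n + 1)) K) :
    (X (Fin.last n) - rename Fin.castSucc u) ∣ p - rename Fin.castSucc (ph u p) := by
  induction p using MvPolynomial.induction_on with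
  | C a =>
    rw [show ph u (C a) = C a from (ph u).commutes a, rename_C, sub_self]
    exact dvd_zero _
  | add p q hp hq =>
    rw [map_add, map_add]
    have := dvd_add hp hq
    rwa [show p - (rename Fin.castSucc) (ph u p) + (q - (rename Fin.castSucc) (ph u q)) =
      p + q - ((rename Fin.castSucc) (ph u p) + (rename Fin.castSucc) (ph u q)) by ring] at this
  | mul_X p i hp =>
    rw [map_mul, map_mul]
    have h1 : (X (Fin.last n) - rename Fin.castSucc u) ∣
        (X i - rename Fin.castSucc (ph u (X i)) : MvPolynomial (Fin (n + 1)) K) := by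
      refine Fin.lastCases ?_ (fun i => ?_) i
      · rw [ph_l]
      · rw [ph_c, rename_X, sub_self]
        exact dvd_zero _
    have h2 := dvd_add (hp.mul_right (X i)) (h1.mul_left (rename Fin.castSucc (ph u p)))
    rwa [show (p - (rename Fin.castSucc) (ph u p)) * X i +
        (rename Fin.castSucc) (ph u p) * (X i - (rename Fin.castSucc) (ph u (X i))) =
      p * X i - (rename Fin.castSucc) (ph u p) * (rename Fin.castSucc) (ph u (X i)) by ring] at h2

theorem ph_stI (f : Fin r → MvPolynomial (Fin n) K) (j₀ : Fin r) (u v : MvPolynomial (Fin n) K) :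
    (∀ j, ph u (stI f j₀ u v (Fin.castSucc j)) = f j) ∧ ph u (stI f j₀ u v (Fin.last r)) = 0 := by
  refine ⟨fun j => ?_, ?_⟩
  · rw [stI_c, map_add, ph_rename]
    split_ifs
    · rw [map_mul, map_sub, ph_l, ph_rename, ph_rename, sub_self, mul_zero, add_zero]
    · rw [map_zero, add_zero]
  · rw [stI_l, map_sub, ph_l, ph_rename, sub_self]

theorem comap_ph (f : Fin r → MvPolynomial (Fin n) K) (j₀ : Fin r) (u v : MvPolynomial (Fin n) K) :
    Ideal.comap (ph u) (Ideal.span (Set.range f)) = Ideal.span (Set.range (stI f j₀ u v)) := by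
  apply le_antisymm
  · intro p hp
    rw [Ideal.mem_comap] at hp
    have hl : (X (Fin.last n) - rename Fin.castSucc u) ∈
        Ideal.span (Set.range (stI f j₀ u v)) := by
      rw [← stI_l f j₀ u v]
      exact Ideal.subset_span ⟨_, rfl⟩
    have h1 : p - rename Fin.castSucc (ph u p) ∈ Ideal.span (Set.range (stI f j₀ u v)) := by
      obtain ⟨g, hg⟩ := ph_dvd u p
      rw [hg]
      exact Ideal.mul_mem_right _ _ hl
    have h2 : rename Fin.castSucc (ph u p) ∈ Ideal.span (Set.range (stI f j₀ u v)) := by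
      have h3 : Ideal.span (Set.range f) ≤
          Ideal.comap (rename Fin.castSucc) (Ideal.span (Set.range (stI f j₀ u v))) := by
        rw [Ideal.span_le]
        rintro _ ⟨j, rfl⟩
        rw [SetLike.mem_coe, Ideal.mem_comap]
        have h4 : stI f j₀ u v (Fin.castSucc j) ∈ Ideal.span (Set.range (stI f j₀ u v)) :=
          Ideal.subset_span ⟨_, rfl⟩
        rw [stI_c] at h4
        have h5 : (if j = j₀ then rename Fin.castSucc v *
            (X (Fin.last n) - rename Fin.castSucc u) else 0) ∈
            Ideal.span (Set.range (stI f j₀ u v)) := by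
          split_ifs
          · exact Ideal.mul_mem_left _ _ hl
          · exact Ideal.zero_mem _
        have h6 := Ideal.sub_mem _ h4 h5
        rwa [add_sub_cancel_right] at h6
      exact h3 hp
    have := Ideal.add_mem _ h1 h2
    rwa [sub_add_cancel] at this
  · rw [Ideal.span_le]
    rintro _ ⟨j, rfl⟩
    rw [SetLike.mem_coe, Ideal.mem_comap]
    refine Fin.lastCases ?_ (fun j => ?_) j
    · rw [(ph_stI f j₀ u v).2]
      exact Ideal.zero_mem _
    · rw [(ph_stI f j₀ u v).1]
      exact Ideal.subset_span ⟨_, rfl⟩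

/-- **The scheme does not change.** -/
theorem iso_st (f : Fin r → MvPolynomial (Fin n) K) (j₀ : Fin r) (u v : MvPolynomial (Fin n) K) :
    Nonempty (CR (stI f j₀ u v) ≃ₐ[K] CR f) := by
  have hs : Function.Surjective ((Ideal.Quotient.mkₐ K (Ideal.span (Set.range f))).comp (ph u)) := by
    intro q
    obtain ⟨p, rfl⟩ := Ideal.Quotient.mkₐ_surjective K _ q
    exact ⟨rename Fin.castSucc p, by rw [AlgHom.comp_apply, ph_rename]⟩
  have hk : RingHom.ker ((Ideal.Quotient.mkₐ K (Ideal.span (Set.range f))).comp (ph u)) =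
      Ideal.span (Set.range (stI f j₀ u v)) := by
    rw [← comap_ph f j₀ u v]
    ext p
    rw [RingHom.mem_ker, Ideal.mem_comap, AlgHom.comp_apply, Ideal.Quotient.mkₐ_eq_mk,
      Ideal.Quotient.eq_zero_iff_mem]
  exact ⟨(Ideal.quotientEquivAlgOfEq K hk.symm).trans
    (Ideal.quotientKerAlgEquivOfSurjective hs)⟩

/-- the ideal generated by the `f_j` is nonzero and proper -/
def Ok (f : Fin r → MvPolynomial (Fin n) K) : Prop :=
  Ideal.span (Set.range f) ≠ ⊥ ∧ Ideal.span (Set.range f) ≠ ⊤

theorem ex_ne (f : Fin r → MvPolynomial (Fin n) K) (h : Ok f) : ∃ j, f j ≠ 0 := by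
  by_contra hcon
  push Not at hcon
  apply h.1
  rw [Ideal.span_eq_bot]
  rintro _ ⟨j, rfl⟩
  exact hcon j

theorem st_ne (u : MvPolynomial (Fin n) K) :
    (X (Fin.last n) - rename Fin.castSucc u : MvPolynomial (Fin (n + 1)) K) ≠ 0 := by
  intro h
  have h1 := congrArg (ph (u - 1)) h
  rw [map_sub, ph_l, ph_rename, map_zero] at h1
  apply one_ne_zero (α := MvPolynomial (Fin n) K)
  linear_combination - h1

theorem ok_st (f : Fin r → MvPolynomial (Fin n) K) (j₀ : Fin r) (u v : MvPolynomial (Fin n) K)
    (h : Ok f) : Ok (stI f j₀ u v) := by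
  refine ⟨fun h1 => ?_, fun h1 => h.2 ?_⟩
  · rw [Ideal.span_eq_bot] at h1
    exact st_ne u (by rw [← stI_l f j₀ u v]; exact h1 _ ⟨_, rfl⟩)
  · rw [← comap_ph f j₀ u v, Ideal.eq_top_iff_one, Ideal.mem_comap, map_one] at h1
    rwa [Ideal.eq_top_iff_one]

end

end Pool.Agent.L5helper37.QI
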