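import Pool.Agent.N101.CB.StmI
import Pool.Agent.Y812.MS.Two
import Pool.Agent.L5helper37.QI.Red

/-!
# Ideals in normal form: the jets of a step
-/

set_option autoImplicit false

namespace Pool.Agent.L5helper37.QI

open MvPolynomial Pool.Agent.W428.MOT Pool.Agent.W375.MT Pool.Agent.N101.CB
open Pool.Agent.Y812.MS (Fl card_Fl rsl exl)
open Pool.Agent.Y229.MS

section
variable {K : Type} [Field K] {n r : ℕ}

theorem constr_TlI (f : Fin r → MvPolynomial (Fin n) K) {W : Set (Pt K (Fin n))} (hW : Constr W)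
    (i N : ℕ) : Constr (TlI f W i N) := by
  unfold TlI
  refine Constr.and (hW.preimage _ fun i => IsPF.coord _)
    (Constr.all fun l => Constr.allLt _ fun j _ => ?_)
  exact Constr.eqz (IsPA.aeval (fun i z => arc z i) (fun i => isPA_arc i) (f l) j)

theorem constr_Wx {W : Set (Pt K (Fin n))} (hW : Constr W) : Constr (Wx W) :=
  hW.preimage _ fun i => IsPF.coord _

theorem jet_diff (f : Fin r → MvPolynomial (Fin n) K) (W : Set (Pt K (Fin n))) (N : ℕ) :
    JetI f W N = TlI f W N N ∩ (TlI f W (N + 1) N)ᶜ := by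
  ext z
  unfold JetI TlI
  simp only [Set.mem_ofPred_eq, Set.mem_inter_iff, Set.mem_compl_iff]
  constructor
  · rintro ⟨h1, h2, l, h3⟩
    exact ⟨⟨h1, h2⟩, fun h4 => h3 (h4.2 l N (Nat.lt_succ_self N))⟩
  · rintro ⟨⟨h1, h2⟩, h3⟩
    refine ⟨h1, h2, ?_⟩
    by_contra hcon
    push Not at hcon
    refine h3 ⟨h1, fun l j hj => ?_⟩
    rcases Nat.lt_succ_iff_lt_or_eq.1 hj with h | h
    · exact h2 l j h
    · rw [h]
      exact hcon l

theorem tl_sub (f : Fin r → MvPolynomial (Fin n) K) (W : Set (Pt K (Fin n))) (N : ℕ) :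
    TlI f W (N + 1) N ⊆ TlI f W N N := fun _ h =>
  ⟨h.1, fun l j hj => h.2 l j (hj.trans (Nat.lt_succ_self N))⟩

theorem constr_JetI (f : Fin r → MvPolynomial (Fin n) K) {W : Set (Pt K (Fin n))} (hW : Constr W)
    (N : ℕ) : Constr (JetI f W N) := by
  rw [jet_diff]
  exact (constr_TlI f hW N N).inter (constr_TlI f hW (N + 1) N).compl

theorem jet_add {R : Type} [CommRing R] (M : Meas K R) (f : Fin r → MvPolynomial (Fin n) K)
    {W : Set (Pt K (Fin n))} (hW : Constr W) (N : ℕ) :
    M.χ _ (TlI f W N N) = M.χ _ (JetI f W N) + M.χ _ (TlI f W (N + 1) N) := by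
  have h := M.add (JetI f W N) (TlI f W (N + 1) N) (constr_JetI f hW N)
    (constr_TlI f hW (N + 1) N) (by
      rw [jet_diff, Set.disjoint_left]
      rintro z ⟨-, h1⟩ h2
      exact h1 h2)
  rw [← h]
  congr 1
  rw [jet_diff]
  ext z
  simp only [Set.mem_union, Set.mem_inter_iff, Set.mem_compl_iff]
  constructor
  · intro h1
    by_cases h2 : z ∈ TlI f W (N + 1) N
    · exact Or.inr h2
    · exact Or.inl ⟨h1, h2⟩
  · rintro (h1 | h1)
    · exact h1.1
    · exact tl_sub f W N h1

/-! ### one more coefficient -/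

theorem tlI_free (f : Fin r → MvPolynomial (Fin n) K) (W : Set (Pt K (Fin n))) (i N : ℕ)
    (hi : i ≤ N + 1) (z w : Pt K (Fin n × Fin (N + 1 + 1))) (h : ∀ p, p ∉ Fl n N → w p = z p)
    (hz : z ∈ TlI f W i (N + 1)) : w ∈ TlI f W i (N + 1) := by
  obtain ⟨h1, h2⟩ := hz
  have h4 : ∀ l, ∀ j ≤ N, PowerSeries.coeff j (aeval (arc w) (f l)) =
      PowerSeries.coeff j (aeval (arc z) (f l)) := by
    intro l
    refine coeff_aeval_congr (f l) N (arc w) (arc z) ?_
    intro i k hk
    rw [coeff_arc _ _ _ (by omega), coeff_arc _ _ _ (by omega)]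
    exact h _ (by simp only [Fl, Finset.mem_filter, Finset.mem_univ, true_and]; omega)
  refine ⟨?_, fun l j hj => ?_⟩
  · have : (fun i => w (i, 0)) = fun i => z (i, 0) := by
      funext i
      exact h (i, 0) (by simp [Fl])
    rw [this]
    exact h1
  · rw [h4 l j (by omega)]
    exact h2 l j hj

theorem tlI_eq {R : Type} [CommRing R] (M : Meas K R) (f : Fin r → MvPolynomial (Fin n) K)
    {W : Set (Pt K (Fin n))} (hW : Constr W) (i N : ℕ) (hi : i ≤ N + 1) :
    M.χ _ (TlI f W i (N + 1) ∩ {z | ∀ p ∈ Fl n N, z p = 0}) = M.χ _ (TlI f W i N) := by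
  refine M.iso _ _ ((constr_TlI f hW i (N + 1)).inter (Constr.ballFinset _ fun p _ =>
    Constr.eqz (IsPF.coord _))) (constr_TlI f hW i N) rsl exl
    (regularOn_poly (fun p => IsPF.coord _) _) (regularOn_poly (fun p => ?_) _) ?_ ?_ ?_ ?_
  · unfold exl
    by_cases h : (p.2 : ℕ) < N + 1
    · simp only [dif_pos h]
      exact IsPF.coord _
    · simp only [dif_neg h]
      exact IsPF.zero
  · rintro z ⟨⟨h1, h2⟩, h3⟩
    have h4 : ∀ l, ∀ j ≤ N, PowerSeries.coeff j (aeval (arc (rsl z)) (f l)) =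
        PowerSeries.coeff j (aeval (arc z) (f l)) := by
      intro l
      refine coeff_aeval_congr (f l) N (arc (rsl z)) (arc z) ?_
      intro i k hk
      rw [coeff_arc _ _ _ (by omega), coeff_arc _ _ _ (by omega)]
      rfl
    refine ⟨h1, fun l j hj => ?_⟩
    rw [h4 l j (by omega)]
    exact h2 l j hj
  · rintro z ⟨h1, h2⟩
    have h4 : ∀ l, ∀ j ≤ N, PowerSeries.coeff j (aeval (arc (exl z)) (f l)) =
        PowerSeries.coeff j (aeval (arc z) (f l)) := by
      intro l
      refine coeff_aeval_congr (f l) N (arc (exl z)) (arc z) ?_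
      intro i k hk
      rw [coeff_arc _ _ _ (by omega), coeff_arc _ _ _ (by omega)]
      simp only [exl]
      rw [dif_pos (by omega)]
    refine ⟨⟨h1, fun l j hj => ?_⟩, ?_⟩
    · rw [h4 l j (by omega)]
      exact h2 l j hj
    · intro p hp
      simp only [Fl, Finset.mem_filter, Finset.mem_univ, true_and] at hp
      simp only [exl]
      rw [dif_neg (by omega)]
  · rintro z ⟨-, h3⟩
    funext p
    simp only [exl, rsl]
    split_ifs with h
    · rfl
    · exact (h3 p (by
        have := p.2.2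
        simp only [Fl, Finset.mem_filter, Finset.mem_univ, true_and]; omega)).symm
  · rintro z -
    funext p
    simp only [exl, rsl]
    rw [dif_pos p.2.2]

/-- one more coefficient -/
theorem tlI_two {R : Type} [CommRing R] (M : Meas K R) (f : Fin r → MvPolynomial (Fin n) K)
    {W : Set (Pt K (Fin n))} (hW : Constr W) (i N : ℕ) (hi : i ≤ N + 1) :
    M.χ _ (TlI f W i (N + 1)) = M.χ _ (TlI f W i N) * M.L ^ n := by
  classical
  have e1 := Pool.Agent.W417.MT.Free.free_one (M := M) (Fl n N) (fun _ => (0 : K))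
    (TlI f W i (N + 1)) (constr_TlI f hW i (N + 1))
    (fun z w h hz => tlI_free f W i N hi z w h hz)
  simp only [map_zero] at e1
  rw [card_Fl, tlI_eq M f hW i N hi] at e1
  exact e1

/-! ### the jets of a step -/

/-- forget the last variable -/
def fg (N : ℕ) (z : Pt K (Fin (n + 1) × Fin (N + 1))) : Pt K (Fin n × Fin (N + 1)) :=
  fun p => z (Fin.castSucc p.1, p.2)

/-- the last variable is zero -/
noncomputable def ap (N : ℕ) (z : Pt K (Fin n × Fin (N + 1))) : Pt K (Fin (n + 1) × Fin (N + 1)) :=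
  fun p => Fin.lastCases (motive := fun _ => AlgebraicClosure K) 0 (fun i => z (i, p.2)) p.1

/-- add `u(x)` to the last variable -/
noncomputable def sw (N : ℕ) (u : MvPolynomial (Fin n) K) (z : Pt K (Fin (n + 1) × Fin (N + 1))) :
    Pt K (Fin (n + 1) × Fin (N + 1)) :=
  fun p => Fin.lastCases (motive := fun _ => AlgebraicClosure K)
    (z (Fin.last n, p.2) + PowerSeries.coeff (p.2 : ℕ) (aeval (arc (fg N z)) u))
    (fun i => z (Fin.castSucc i, p.2)) p.1

theorem ap_c (N : ℕ) (z : Pt K (Fin n × Fin (N + 1))) (i : Fin n) (j : Fin (N + 1)) :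
    ap N z (Fin.castSucc i, j) = z (i, j) := by
  unfold ap
  rw [Fin.lastCases_castSucc]

theorem ap_l (N : ℕ) (z : Pt K (Fin n × Fin (N + 1))) (j : Fin (N + 1)) :
    ap N z (Fin.last n, j) = 0 := by
  unfold ap
  rw [Fin.lastCases_last]

theorem sw_c (N : ℕ) (u : MvPolynomial (Fin n) K) (z : Pt K (Fin (n + 1) × Fin (N + 1)))
    (i : Fin n) (j : Fin (N + 1)) :
    sw N u z (Fin.castSucc i, j) = z (Fin.castSucc i, j) := by
  unfold sw
  rw [Fin.lastCases_castSucc]

theorem sw_l (N : ℕ) (u : MvPolynomial (Fin n) K) (z : Pt K (Fin (n + 1) × Fin (N + 1)))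
    (j : Fin (N + 1)) :
    sw N u z (Fin.last n, j) =
      z (Fin.last n, j) + PowerSeries.coeff (j : ℕ) (aeval (arc (fg N z)) u) := by
  unfold sw
  rw [Fin.lastCases_last]

theorem fg_sw (N : ℕ) (u : MvPolynomial (Fin n) K) (z : Pt K (Fin (n + 1) × Fin (N + 1))) :
    fg N (sw N u z) = fg N z := by
  funext p
  exact sw_c N u z p.1 p.2

theorem fg_ap (N : ℕ) (z : Pt K (Fin n × Fin (N + 1))) : fg N (ap N z) = z := by
  funext p
  exact ap_c N z p.1 p.2

theorem arc_fg (N : ℕ) (z : Pt K (Fin (n + 1) × Fin (N + 1))) :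
    arc (fg N z) = fun i => arc z (Fin.castSucc i) := rfl

theorem sw_sw (N : ℕ) (u : MvPolynomial (Fin n) K) (z : Pt K (Fin (n + 1) × Fin (N + 1))) :
    sw N (-u) (sw N u z) = z := by
  funext p
  obtain ⟨i, j⟩ := p
  refine Fin.lastCases ?_ (fun i => ?_) i
  · rw [sw_l, sw_l, fg_sw, map_neg, map_neg]
    ring
  · rw [sw_c, sw_c]

theorem sw_sw' (N : ℕ) (u : MvPolynomial (Fin n) K) (z : Pt K (Fin (n + 1) × Fin (N + 1))) :
    sw N u (sw N (-u) z) = z := by
  have h := sw_sw N (-u) z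
  rwa [neg_neg] at h

theorem aeval_rn {m : ℕ} (γ : Fin (n + 1) → PowerSeries (AlgebraicClosure K))
    (p : MvPolynomial (Fin n) K) (_h : m = 0) :
    aeval γ (rename Fin.castSucc p) = aeval (fun i => γ (Fin.castSucc i)) p := by
  rw [aeval_rename]
  rfl

/-- the value of the last generator -/
theorem val_l (f : Fin r → MvPolynomial (Fin n) K) (j₀ : Fin r) (u v : MvPolynomial (Fin n) K)
    (N : ℕ) (z : Pt K (Fin (n + 1) × Fin (N + 1))) :
    aeval (arc z) (stI f j₀ u v (Fin.last r)) =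
      arc z (Fin.last n) - aeval (arc (fg N z)) u := by
  rw [stI_l, map_sub, aeval_X, aeval_rn (m := 0) _ _ rfl, arc_fg]

/-- the value of the other generators -/
theorem val_c (f : Fin r → MvPolynomial (Fin n) K) (j₀ : Fin r) (u v : MvPolynomial (Fin n) K)
    (N : ℕ) (z : Pt K (Fin (n + 1) × Fin (N + 1))) (l : Fin r) :
    ∃ g : PowerSeries (AlgebraicClosure K), aeval (arc z) (stI f j₀ u v (Fin.castSucc l)) =
      aeval (arc (fg N z)) (f l) + g * (arc z (Fin.last n) - aeval (arc (fg N z)) u) := by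
  rw [stI_c, map_add, aeval_rn (m := 0) _ _ rfl, ← arc_fg]
  split_ifs with h
  · refine ⟨aeval (arc (fg N z)) v, ?_⟩
    rw [map_mul, map_sub, aeval_X, aeval_rn (m := 0) _ _ rfl, aeval_rn (m := 0) _ _ rfl, ← arc_fg]
  · exact ⟨0, by rw [map_zero, zero_mul]⟩

/-- the coefficients below `i` are zero -/
def Vi (i : ℕ) (g : PowerSeries (AlgebraicClosure K)) : Prop := ∀ j < i, PowerSeries.coeff j g = 0

theorem vi_iff (i : ℕ) (g : PowerSeries (AlgebraicClosure K)) :
    Vi i g ↔ (PowerSeries.X : PowerSeries (AlgebraicClosure K)) ^ i ∣ g :=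
  (PowerSeries.X_pow_dvd_iff).symm

theorem mem_st (f : Fin r → MvPolynomial (Fin n) K) (j₀ : Fin r) (u v : MvPolynomial (Fin n) K)
    (W : Set (Pt K (Fin n))) (i N : ℕ) (z : Pt K (Fin (n + 1) × Fin (N + 1))) :
    z ∈ TlI (stI f j₀ u v) (Wx W) i N ↔ fg N z ∈ TlI f W i N ∧
      Vi i (arc z (Fin.last n) - aeval (arc (fg N z)) u) := by
  constructor
  · rintro ⟨h1, h2⟩
    have h3 : Vi i (arc z (Fin.last n) - aeval (arc (fg N z)) u) := by
      have := h2 (Fin.last r)
      rw [val_l] at this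
      exact this
    refine ⟨⟨h1, fun l => ?_⟩, h3⟩
    obtain ⟨g, hg⟩ := val_c f j₀ u v N z l
    have h4 : Vi i (aeval (arc z) (stI f j₀ u v (Fin.castSucc l))) := h2 _
    rw [vi_iff] at h3 h4
    change Vi i _
    rw [vi_iff]
    have h5 := dvd_sub h4 (h3.mul_left g)
    rw [hg, add_sub_cancel_right] at h5
    exact h5
  · rintro ⟨⟨h1, h2⟩, h3⟩
    refine ⟨h1, fun l => ?_⟩
    refine Fin.lastCases ?_ (fun l => ?_) l
    · rw [val_l]
      exact h3
    · obtain ⟨g, hg⟩ := val_c f j₀ u v N z l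
      have h4 : Vi i (aeval (arc (fg N z)) (f l)) := h2 l
      rw [hg]
      change Vi i _
      rw [vi_iff] at h3 h4 ⊢
      exact dvd_add h4 (h3.mul_left g)

/-- the free coordinates -/
def Fr (n i N : ℕ) : Finset (Fin (n + 1) × Fin (N + 1)) :=
  Finset.univ.filter fun p => p.1 = Fin.last n ∧ i ≤ (p.2 : ℕ)

theorem card_Fr (n i N : ℕ) : (Fr n i N).card = N + 1 - i := by
  have h : Fr n i N = ({Fin.last n} : Finset (Fin (n + 1))) ×ˢ
      (Finset.univ.filter fun j : Fin (N + 1) => i ≤ (j : ℕ)) := by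
    ext ⟨a, b⟩
    simp only [Fr, Finset.mem_filter, Finset.mem_univ, true_and, Finset.mem_product,
      Finset.mem_singleton]
  rw [h, Finset.card_product, Finset.card_singleton, one_mul]
  have h2 : (Finset.univ.filter fun j : Fin (N + 1) => i ≤ (j : ℕ)).map Fin.valEmbedding =
      Finset.Ico i (N + 1) := by
    ext k
    simp only [Finset.mem_map, Finset.mem_filter, Finset.mem_univ, true_and, Fin.valEmbedding_apply,
      Finset.mem_Ico]
    constructor
    · rintro ⟨j, h1, rfl⟩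
      exact ⟨h1, j.2⟩
    · rintro ⟨h1, h2⟩
      exact ⟨⟨k, h2⟩, h1, rfl⟩
  rw [← Finset.card_map Fin.valEmbedding, h2, Nat.card_Ico]

/-- the jets with `e = 0` below `i` -/
def Sp (f : Fin r → MvPolynomial (Fin n) K) (W : Set (Pt K (Fin n))) (i N : ℕ) :
    Set (Pt K (Fin (n + 1) × Fin (N + 1))) :=
  {z | fg N z ∈ TlI f W i N ∧ ∀ j : Fin (N + 1), (j : ℕ) < i → z (Fin.last n, j) = 0}

theorem constr_Sp (f : Fin r → MvPolynomial (Fin n) K) {W : Set (Pt K (Fin n))} (hW : Constr W)
    (i N : ℕ) : Constr (Sp f W i N) := by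
  unfold Sp
  refine Constr.and ?_ (Constr.all fun j => Constr.imp' fun _ => Constr.eqz (IsPF.coord _))
  exact (constr_TlI f hW i N).preimage _ fun p => IsPF.coord _

theorem chi_Sp {R : Type} [CommRing R] (M : Meas K R) (f : Fin r → MvPolynomial (Fin n) K)
    {W : Set (Pt K (Fin n))} (hW : Constr W) (i N : ℕ) :
    M.χ _ (Sp f W i N) = M.χ _ (TlI f W i N) * M.L ^ (N + 1 - i) := by
  classical
  have e1 := Pool.Agent.W417.MT.Free.free_one (M := M) (Fr n i N) (fun _ => (0 : K))
    (Sp f W i N) (constr_Sp f hW i N) (fun z w h hz => by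
      have h1 : fg N w = fg N z := by
        funext p
        refine h _ ?_
        simp only [Fr, Finset.mem_filter, Finset.mem_univ, true_and]
        intro h2
        exact (Fin.castSucc_lt_last p.1).ne h2.1
      refine ⟨by rw [h1]; exact hz.1, fun j hj => ?_⟩
      rw [h (Fin.last n, j) (by
        simp only [Fr, Finset.mem_filter, Finset.mem_univ, true_and]
        omega)]
      exact hz.2 j hj)
  simp only [map_zero] at e1
  rw [card_Fr] at e1
  rw [e1]
  congr 1
  refine M.iso _ _ ((constr_Sp f hW i N).inter (Constr.ballFinset _ fun p _ =>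
    Constr.eqz (IsPF.coord _))) (constr_TlI f hW i N) (fg N) (ap N)
    (regularOn_poly (fun p => IsPF.coord _) _) (regularOn_poly (fun p => ?_) _) ?_ ?_ ?_ ?_
  · obtain ⟨a, b⟩ := p
    refine Fin.lastCases ?_ (fun a => ?_) a
    · simp only [ap_l]
      exact IsPF.zero
    · simp only [ap_c]
      exact IsPF.coord _
  · rintro z ⟨h1, -⟩
    exact h1.1
  · intro z hz
    refine ⟨⟨by rw [fg_ap]; exact hz, fun j _ => ap_l N z j⟩, fun p hp => ?_⟩
    simp only [Fr, Finset.mem_filter, Finset.mem_univ, true_and] at hp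
    obtain ⟨a, b⟩ := p
    simp only at hp
    rw [hp.1]
    exact ap_l N z b
  · rintro z ⟨h1, h2⟩
    funext p
    obtain ⟨a, b⟩ := p
    refine Fin.lastCases ?_ (fun a => ?_) a
    · rw [ap_l]
      by_cases h3 : (b : ℕ) < i
      · exact (h1.2 b h3).symm
      · exact (h2 (Fin.last n, b) (by
          simp only [Fr, Finset.mem_filter, Finset.mem_univ, true_and]
          omega)).symm
    · rw [ap_c]
      rfl
  · intro z _
    exact fg_ap N z

theorem coeff_diff (u : MvPolynomial (Fin n) K) (N : ℕ) (z : Pt K (Fin (n + 1) × Fin (N + 1)))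
    (j : Fin (N + 1)) :
    PowerSeries.coeff (j : ℕ) (arc z (Fin.last n) - aeval (arc (fg N z)) u) =
      sw N (-u) z (Fin.last n, j) := by
  rw [map_sub, coeff_arc _ _ _ j.2, sw_l, map_neg, map_neg, sub_eq_add_neg]

theorem mem_sw (f : Fin r → MvPolynomial (Fin n) K) (j₀ : Fin r) (u v : MvPolynomial (Fin n) K)
    (W : Set (Pt K (Fin n))) (i N : ℕ) (hi : i ≤ N + 1) (z : Pt K (Fin (n + 1) × Fin (N + 1))) :
    z ∈ TlI (stI f j₀ u v) (Wx W) i N ↔ sw N (-u) z ∈ Sp f W i N := by
  rw [mem_st]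
  unfold Sp
  simp only [Set.mem_ofPred_eq]
  rw [fg_sw]
  refine and_congr_right fun _ => ?_
  constructor
  · intro h j hj
    rw [← coeff_diff]
    exact h j hj
  · intro h j hj
    have h1 := coeff_diff u N z ⟨j, by omega⟩
    simp only at h1
    rw [h1]
    exact h _ hj

/-- **The jets of a step.** -/
theorem chi_st {R : Type} [CommRing R] (M : Meas K R) (f : Fin r → MvPolynomial (Fin n) K)
    (j₀ : Fin r) (u v : MvPolynomial (Fin n) K)
    {W : Set (Pt K (Fin n))} (hW : Constr W) (i N : ℕ) (hi : i ≤ N + 1) :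
    M.χ _ (TlI (stI f j₀ u v) (Wx W) i N) = M.χ _ (TlI f W i N) * M.L ^ (N + 1 - i) := by
  rw [← chi_Sp M f hW i N]
  have hreg : ∀ (p : MvPolynomial (Fin n) K) (a : Fin (n + 1) × Fin (N + 1)),
      IsPF (fun z : Pt K (Fin (n + 1) × Fin (N + 1)) => sw N p z a) := by
    intro p a
    obtain ⟨a, b⟩ := a
    refine Fin.lastCases ?_ (fun a => ?_) a
    · simp only [sw_l]
      refine (IsPF.coord _).add ?_
      have := IsPA.aeval (fun i (z : Pt K (Fin (n + 1) × Fin (N + 1))) =>
        arc z (Fin.castSucc i)) (fun i => isPA_arc (Fin.castSucc i)) p (b : ℕ)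
      exact this
    · simp only [sw_c]
      exact IsPF.coord _
  refine M.iso _ _ (constr_TlI _ (constr_Wx hW) i N) (constr_Sp f hW i N) (sw N (-u)) (sw N u)
    (regularOn_poly (hreg (-u)) _) (regularOn_poly (hreg u) _) ?_ ?_ ?_ ?_
  · intro z hz
    exact (mem_sw f j₀ u v W i N hi z).1 hz
  · intro z hz
    rw [mem_sw f j₀ u v W i N hi, sw_sw]
    exact hz
  · intro z _
    exact sw_sw' N u z
  · intro z _
    exact sw_sw N u z

end

end Pool.Agent.L5helper37.QI
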