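import Pool.Agent.N101.CB.Main
import Pool.Agent.L5helper37.QI.Jet

/-!
# Ideals in normal form: the zeta function of a step
-/

set_option autoImplicit false

namespace Pool.Agent.L5helper37.QI

open MvPolynomial Pool.Agent.W428.MOT Pool.Agent.W375.MT Pool.Agent.N101.CB
open Pool.Agent.Y229.MS (rescale_X' rescale_C')

section
variable {K : Type} [Field K] [CharZero K] {n r : ℕ}

/-- the class of `{ord ≥ i}` -/
noncomputable def A (f : Fin r → MvPolynomial (Fin n) K) (W : Set (Pt K (Fin n))) (i N : ℕ) :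
    MK K := clM (TlI f W i N)

/-- `𝕃⁻¹` -/
noncomputable def y (K : Type) [Field K] : MK K := (((Lu K)⁻¹ : (MK K)ˣ) : MK K)

/-- `𝕃` -/
noncomputable def L (K : Type) [Field K] : MK K := ((Lu K : (MK K)ˣ) : MK K)

omit [CharZero K] in
theorem Ly : L K * y K = 1 := Units.mul_inv _

omit [CharZero K] in
theorem Ly_pow (k : ℕ) : L K ^ k * y K ^ k = 1 := by rw [← mul_pow, Ly, one_pow]

omit [CharZero K] in
theorem zpow_y (k : ℕ) : (((Lu K) ^ (-(k : ℤ)) : (MK K)ˣ) : MK K) = y K ^ k := by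
  unfold y
  rw [zpow_neg, zpow_natCast, ← inv_pow, Units.val_pow_eq_pow_val]

theorem A_jet (f : Fin r → MvPolynomial (Fin n) K) {W : Set (Pt K (Fin n))} (hW : Constr W)
    (N : ℕ) : clM (JetI f W N) = A f W N N - A f W (N + 1) N := by
  obtain ⟨M, hM, -⟩ := clM_full K
  have h := jet_add M f hW N
  rw [hM, hM, hM] at h
  unfold A
  rw [h]
  ring

theorem A_two (f : Fin r → MvPolynomial (Fin n) K) {W : Set (Pt K (Fin n))} (hW : Constr W)
    (i N : ℕ) (hi : i ≤ N + 1) : A f W i (N + 1) = A f W i N * L K ^ n := by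
  obtain ⟨M, hM, hL⟩ := clM_full K
  have h := tlI_two M f hW i N hi
  rw [hM, hM, hL] at h
  exact h

theorem A_st (f : Fin r → MvPolynomial (Fin n) K) (j₀ : Fin r) (u v : MvPolynomial (Fin n) K)
    {W : Set (Pt K (Fin n))} (hW : Constr W) (i N : ℕ) (hi : i ≤ N + 1) :
    A (stI f j₀ u v) (Wx W) i N = A f W i N * L K ^ (N + 1 - i) := by
  obtain ⟨M, hM, hL⟩ := clM_full K
  have h := chi_st M f j₀ u v hW i N hi
  rw [hM, hM, hL] at h
  exact h

theorem A_zero (f : Fin r → MvPolynomial (Fin n) K) {W : Set (Pt K (Fin n))} (hW : Constr W) :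
    A f W 0 0 = clM W := by
  obtain ⟨M, hM, hL⟩ := clM_full K
  unfold A
  rw [← hM, ← hM]
  refine M.iso _ _ (constr_TlI f hW 0 0) hW (fun z i => z (i, 0)) (fun w p => w p.1)
    (regularOn_poly (fun p => IsPF.coord _) _) (regularOn_poly (fun p => IsPF.coord _) _)
    ?_ ?_ ?_ ?_
  · intro z hz
    exact hz.1
  · intro z hz
    exact ⟨hz, fun l j hj => absurd hj (Nat.not_lt_zero j)⟩
  · intro z _
    funext p
    obtain ⟨i, j⟩ := p
    have : j = 0 := Fin.ext (by have := j.2; omega)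
    rw [this]
  · intro z _
    rfl

/-- the normalised classes -/
noncomputable def aa (f : Fin r → MvPolynomial (Fin n) K) (W : Set (Pt K (Fin n))) (N : ℕ) : MK K :=
  A f W N N * y K ^ (n * N)

theorem coeff_ztI (f : Fin r → MvPolynomial (Fin n) K) {W : Set (Pt K (Fin n))} (hW : Constr W)
    (N : ℕ) : PowerSeries.coeff N (ztI f W) = aa f W N - aa f W (N + 1) := by
  unfold ztI aa
  rw [PowerSeries.coeff_mk, zpow_y, A_jet f hW, A_two f hW (N + 1) N le_rfl]
  have h := Ly_pow (K := K) n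
  rw [mul_add, mul_one, pow_add]
  linear_combination (A f W (N + 1) N * y K ^ (n * N)) * h

theorem coeff_ztI_st (f : Fin r → MvPolynomial (Fin n) K) (j₀ : Fin r)
    (u v : MvPolynomial (Fin n) K) {W : Set (Pt K (Fin n))} (hW : Constr W) (N : ℕ) :
    PowerSeries.coeff N (ztI (stI f j₀ u v) (Wx W)) =
      L K * (y K ^ N * aa f W N) - y K ^ N * aa f W (N + 1) := by
  unfold ztI aa
  rw [PowerSeries.coeff_mk, zpow_y, A_jet _ (constr_Wx hW), A_st f j₀ u v hW N N (by omega),
    A_st f j₀ u v hW (N + 1) N le_rfl, A_two f hW (N + 1) N le_rfl]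
  have h := Ly_pow (K := K) n
  have e1 : N + 1 - N = 1 := by omega
  rw [e1, Nat.sub_self, pow_zero, mul_one, pow_one, add_mul, one_mul, mul_add, mul_one, pow_add,
    pow_add]
  linear_combination (A f W (N + 1) N * y K ^ (n * N) * y K ^ N) * h

omit [CharZero K] in
theorem unit_cancel' {a : MK K} {A B : PowerSeries (MK K)}
    (h : (1 - PowerSeries.C a * PowerSeries.X) * A = (1 - PowerSeries.C a * PowerSeries.X) * B) :
    A = B := by
  have hu : IsUnit (1 - PowerSeries.C a * PowerSeries.X : PowerSeries (MK K)) := by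
    rw [PowerSeries.isUnit_iff_constantCoeff]
    simp
  exact hu.mul_left_cancel h

/-- **The zeta function of a step.** -/
theorem zi (f : Fin r → MvPolynomial (Fin n) K) (j₀ : Fin r) (u v : MvPolynomial (Fin n) K)
    {W : Set (Pt K (Fin n))} (hW : Constr W) :
    ztI (stI f j₀ u v) (Wx W) =
      PowerSeries.C (clM W) * (cL K - 1 + Fz K 1 1) +
        (1 - Fz K 1 1) * PowerSeries.rescale (((Lu K)⁻¹ : (MK K)ˣ) : MK K) (ztI f W) := by
  obtain ⟨S, hS⟩ : ∃ S : PowerSeries (MK K), S = PowerSeries.mk fun N => y K ^ N * aa f W N :=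
    ⟨_, rfl⟩
  obtain ⟨D, hD⟩ : ∃ D : PowerSeries (MK K),
      D = PowerSeries.mk fun N => y K ^ N * aa f W (N + 1) := ⟨_, rfl⟩
  have h1 : ztI (stI f j₀ u v) (Wx W) = cL K * S - D := by
    ext N
    rw [coeff_ztI_st f j₀ u v hW, hS, hD, map_sub]
    unfold cL
    rw [PowerSeries.coeff_C_mul, PowerSeries.coeff_mk, PowerSeries.coeff_mk]
    rfl
  have h2 : PowerSeries.rescale (((Lu K)⁻¹ : (MK K)ˣ) : MK K) (ztI f W) = S - D := by
    ext N
    rw [PowerSeries.coeff_rescale, coeff_ztI f hW, hS, hD, map_sub, PowerSeries.coeff_mk,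
      PowerSeries.coeff_mk]
    unfold y
    ring
  have h3 : S = PowerSeries.C (clM W) + cY K * PowerSeries.X * D := by
    ext N
    cases N with
    | zero =>
      rw [hS, map_add, PowerSeries.coeff_mk, mul_assoc]
      unfold cY
      rw [PowerSeries.coeff_C_mul, PowerSeries.coeff_zero_X_mul, PowerSeries.coeff_zero_C]
      unfold aa
      rw [A_zero f hW, pow_zero, mul_zero, pow_zero]
      ring
    | succ N =>
      rw [hS, map_add, PowerSeries.coeff_mk, mul_assoc, PowerSeries.coeff_C,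
        if_neg (Nat.succ_ne_zero N), hD]
      unfold cY
      rw [PowerSeries.coeff_C_mul, PowerSeries.coeff_succ_X_mul, PowerSeries.coeff_mk, pow_succ]
      unfold y
      ring
  have hF := Fz_mul (K := K)
  rw [h1, h2]
  apply unit_cancel' (a := (((Lu K)⁻¹ : (MK K)ˣ) : MK K))
  change (1 - cY K * PowerSeries.X) * _ = (1 - cY K * PowerSeries.X) * _
  have e : (1 - cY K * PowerSeries.X) * (PowerSeries.C (clM W) * (cL K - 1 + Fz K 1 1) +
      (1 - Fz K 1 1) * (S - D)) =
    PowerSeries.C (clM W) * ((1 - cY K * PowerSeries.X) * (cL K - 1) +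
      (1 - cY K * PowerSeries.X) * Fz K 1 1) +
      ((1 - cY K * PowerSeries.X) - (1 - cY K * PowerSeries.X) * Fz K 1 1) * (S - D) := by ring
  rw [e, hF, h3]
  set a := PowerSeries.C (clM W)
  set Y := cY K
  set l := cL K
  set X : PowerSeries (MK K) := PowerSeries.X
  ring

end

end Pool.Agent.L5helper37.QI
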