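import Pool.Agent.N101.CB.Main
import Pool.Agent.L5helper37.QI.Zi
import Pool.Agent.L5helper37.QI.Bf
import Pool.Agent.L5helper37.QI.Iso

/-!
# Ideals in normal form: main theorems
-/

set_option autoImplicit false

namespace Pool.Agent.L5helper37.QI

open MvPolynomial Pool.Agent.W428.MOT Pool.Agent.N101.CB
open Pool.Agent.W574.SM (IsFunctionalEq)

/-- The formula `(s + κ) (R'(s) - 1) = s (R(s + κ) - 1)`. -/
def TFI (κ : ℕ) (R R' : RatFunc ℂ) : Prop :=
  (RatFunc.X + (κ : RatFunc ℂ)) * (R' - 1) = RatFunc.X * (shR (κ : ℂ) R - 1)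

theorem TFI.refl (R : RatFunc ℂ) : TFI 0 R R := by
  unfold TFI
  rw [Nat.cast_zero, Nat.cast_zero, shR_zero]
  ring

theorem TFI.one (R : RatFunc ℂ) : TFI 1 R (topStepI 1 R) := by
  unfold TFI topStepI
  rw [ft00, map_add, RatFunc.algebraMap_X]
  simp only [map_one, Nat.cast_one]
  have h := lin_ne 1
  rw [map_one] at h
  field_simp
  ring

theorem TFI.comp {R S T : RatFunc ℂ} (κ : ℕ) (h1 : TFI 1 R S) (h2 : TFI κ S T) :
    TFI (κ + 1) R T := by
  unfold TFI at *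
  have h3 := congrArg (shR (κ : ℂ)) h1
  rw [map_mul, map_mul, map_sub, map_sub, map_add, map_one,
    Nat.cast_one, Nat.cast_one, map_one, shR_X, shR_add, map_natCast] at h3
  have h4 := lin_ne (κ : ℂ)
  rw [map_natCast] at h4
  apply mul_left_cancel₀ h4
  push_cast
  linear_combination (RatFunc.X + (κ : RatFunc ℂ) + 1) * h2 + RatFunc.X * h3

/-- descent of regularity -/
theorem TFI.reg {κ : ℕ} {R R' : RatFunc ℂ} (h : TFI κ R R') {s : ℂ} (hs : s ≠ κ)
    (hR : Reg R' (s - κ)) : Reg R s := by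
  have a1 : (Polynomial.X : Polynomial ℂ).eval (s - κ) ≠ 0 := by
    rw [Polynomial.eval_X]
    exact sub_ne_zero.2 hs
  have b1 := ne0 a1
  rw [RatFunc.algebraMap_X] at b1
  have e : shR (κ : ℂ) R = 1 + algebraMap (Polynomial ℂ) (RatFunc ℂ)
      (Polynomial.X + Polynomial.C (κ : ℂ)) * (R' - 1) *
      (algebraMap (Polynomial ℂ) (RatFunc ℂ) Polynomial.X)⁻¹ := by
    have c : algebraMap (Polynomial ℂ) (RatFunc ℂ) (Polynomial.X + Polynomial.C (κ : ℂ)) =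
        RatFunc.X + (κ : RatFunc ℂ) := by
      rw [map_add, RatFunc.algebraMap_X]
      congr 1
      rw [Polynomial.C_eq_natCast, map_natCast]
    rw [c, RatFunc.algebraMap_X]
    unfold TFI at h
    rw [h]
    field_simp
    ring
  have h1 : Reg (shR (κ : ℂ) R) (s - κ) := by
    rw [e]
    have h2 : Reg (1 : RatFunc ℂ) (s - κ) := by
      have := Reg.poly 1 (s - κ)
      rwa [map_one] at this
    exact h2.add (((Reg.poly _ _).mul (hR.sub h2)).mul (Reg.inv a1))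
  have h2 := h1.shR (-(κ : ℂ))
  rw [shR_shR] at h2
  simpa using h2

/-- ascent of regularity -/
theorem TFI.reg' {κ : ℕ} {R R' : RatFunc ℂ} (h : TFI κ R R') {s : ℂ} (hs : s ≠ 0)
    (hR : Reg R s) : Reg R' (s - κ) := by
  have a1 : (Polynomial.X + Polynomial.C (κ : ℂ) : Polynomial ℂ).eval (s - κ) ≠ 0 := by
    simpa using hs
  have b1 := ne0 a1
  have c : algebraMap (Polynomial ℂ) (RatFunc ℂ) (Polynomial.X + Polynomial.C (κ : ℂ)) =
      RatFunc.X + (κ : RatFunc ℂ) := by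
    rw [map_add, RatFunc.algebraMap_X]
    congr 1
    rw [Polynomial.C_eq_natCast, map_natCast]
  have e : R' = 1 + algebraMap (Polynomial ℂ) (RatFunc ℂ) Polynomial.X *
      (shR (κ : ℂ) R - 1) *
      (algebraMap (Polynomial ℂ) (RatFunc ℂ) (Polynomial.X + Polynomial.C (κ : ℂ)))⁻¹ := by
    rw [c] at b1 ⊢
    rw [RatFunc.algebraMap_X]
    unfold TFI at h
    rw [← h]
    field_simp
    ring
  rw [e]
  have h2 : Reg (1 : RatFunc ℂ) (s - κ) := by
    have := Reg.poly 1 (s - κ)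
    rwa [map_one] at this
  exact h2.add (((Reg.poly _ _).mul ((hR.shR (κ : ℂ)).sub h2)).mul (Reg.inv a1))

/-- all the relations between `f` and its normal form `F` -/
structure Rl {n m r s : ℕ} (f : Fin r → MvPolynomial (Fin n) ℂ)
    (F : Fin s → MvPolynomial (Fin m) ℂ) (κ : ℕ) : Prop where
  ok : Ok f → Ok F
  iso : Nonempty (CR F ≃ₐ[ℂ] CR f)
  b : Ok f → ∀ b : Polynomial ℂ, IsFunctionalEq f b →
    IsFunctionalEq F (b.comp (Polynomial.X + Polynomial.C (κ : ℂ)))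
  top : ∀ χ : MK ℂ →+* ℂ, χ ((Lu ℂ : (MK ℂ)ˣ) : MK ℂ) = 1 → ∀ R : RatFunc ℂ,
    IsTop χ (ztI f Set.univ) R → ∃ R' : RatFunc ℂ, IsTop χ (ztI F Set.univ) R' ∧ TFI κ R R'

theorem Rl.refl {n r : ℕ} (f : Fin r → MvPolynomial (Fin n) ℂ) : Rl f f 0 where
  ok h := h
  iso := ⟨AlgEquiv.refl⟩
  b _ b hb := by
    rw [Nat.cast_zero, map_zero, add_zero, Polynomial.comp_X]
    exact hb
  top χ _ R hR := ⟨R, hR, TFI.refl R⟩

theorem wx_univ {K : Type} [Field K] {n : ℕ} :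
    Wx (Set.univ : Set (Pt K (Fin n))) = Set.univ := by
  ext w
  simp [Wx]

theorem Rl.step {n r m s : ℕ} (f : Fin r → MvPolynomial (Fin n) ℂ) (j₀ : Fin r)
    (u v : MvPolynomial (Fin n) ℂ) (F : Fin s → MvPolynomial (Fin m) ℂ) (κ : ℕ)
    (h : Rl (stI f j₀ u v) F κ) : Rl f F (κ + 1) where
  ok h0 := h.ok (ok_st f j₀ u v h0)
  iso := by
    obtain ⟨e⟩ := h.iso
    obtain ⟨e'⟩ := iso_st f j₀ u v
    exact ⟨e.trans e'⟩
  b h0 b hb := by
    have h1 := bf f j₀ u v (ex_ne f h0) ⟨Fin.last r, by rw [stI_l]; exact st_ne u⟩ b hb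
    have h2 := h.b (ok_st f j₀ u v h0) _ h1
    rwa [comp_succ] at h2
  top χ hχ R hR := by
    have h1 : IsTop χ (ztI (stI f j₀ u v) Set.univ) (topStepI 1 R) := by
      have h0 := isTop_ideal hχ hR (clM (Set.univ : Set (Pt ℂ (Fin n))))
      have hw : χ (clM (Set.univ : Set (Pt ℂ (Fin n)))) = 1 := by
        rw [clM_univ, map_pow, hχ, one_pow]
      rw [hw, ← zi f j₀ u v Constr.univ, wx_univ] at h0
      exact h0
    obtain ⟨R', h2, hT⟩ := h.top χ hχ _ h1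
    exact ⟨R', h2, TFI.comp κ (TFI.one R) hT⟩

/-- **The normal form of an ideal.** -/
theorem exists_nf {n r : ℕ} (f : Fin r → MvPolynomial (Fin n) ℂ) :
    ∃ (κ m s : ℕ) (F : Fin s → MvPolynomial (Fin m) ℂ), m = n + κ ∧ s = r + κ ∧ Nf F ∧
      Rl f F κ :=
  chainI (fun f F κ => Rl f F κ) (fun f => Rl.refl f)
    (fun f j₀ u v F κ h => Rl.step f j₀ u v F κ h) f

section
variable (χ : MK ℂ →+* ℂ) {n r m s : ℕ}

/-- Q1 -/
def Q1 (f : Fin r → MvPolynomial (Fin n) ℂ) : Prop :=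
  ∀ R : RatFunc ℂ, IsTop χ (ztI f Set.univ) R → ∀ s : ℂ, ¬ Reg R s →
    ∀ b : Polynomial ℂ, IsFunctionalEq f b → b.eval s = 0

/-- Q2 -/
def Q2 (f : Fin r → MvPolynomial (Fin n) ℂ) : Prop :=
  ∀ R : RatFunc ℂ, IsTop χ (ztI f Set.univ) R → ∀ b : Polynomial ℂ, IsFunctionalEq f b →
    ∃ p : Polynomial ℂ, algebraMap (Polynomial ℂ) (RatFunc ℂ) b * R =
      algebraMap (Polynomial ℂ) (RatFunc ℂ) p

variable {χ} {f : Fin r → MvPolynomial (Fin n) ℂ} {F : Fin s → MvPolynomial (Fin m) ℂ} {κ : ℕ}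

theorem q1_of (hχ : χ ((Lu ℂ : (MK ℂ)ˣ) : MK ℂ) = 1) (h : Rl f F κ) (hf : Ok f)
    (hF : Q1 χ F) : Q1 χ f := by
  intro R hR t ht b hb
  obtain ⟨R', h1, h2⟩ := h.top χ hχ R hR
  obtain ⟨q, hq, rfl⟩ := ne_of_pole hR ht
  have h3 : (q : ℂ) ≠ κ := by
    intro h4
    have h5 : q = κ := by exact_mod_cast h4
    have h6 : (0 : ℚ) ≤ κ := Nat.cast_nonneg κ
    linarith
  have h4 := hF R' h1 ((q : ℂ) - κ) (fun h5 => ht (h2.reg h3 h5)) _ (h.b hf b hb)
  rw [Polynomial.eval_comp] at h4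
  simpa using h4

theorem reg_nat {Z : PowerSeries (MK ℂ)} {R : RatFunc ℂ} (hR : IsTop χ Z R) (κ : ℕ) :
    Reg R (κ : ℂ) := by
  refine hR.reg fun p hp => ?_
  have h1 : (((p.1 + 1) * κ + (p.2 + 1) : ℕ) : ℂ) = 0 := by
    push_cast
    exact hp
  rw [Nat.cast_eq_zero] at h1
  omega

theorem q2_of (hχ : χ ((Lu ℂ : (MK ℂ)ˣ) : MK ℂ) = 1) (h : Rl f F κ) (hf : Ok f)
    (hF : Q2 χ F) : Q2 χ f := by
  intro R hR b hb
  obtain ⟨R', h1, h2⟩ := h.top χ hχ R hR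
  obtain ⟨p, hp⟩ := hF R' h1 _ (h.b hf b hb)
  have c : algebraMap (Polynomial ℂ) (RatFunc ℂ) (Polynomial.X + Polynomial.C (κ : ℂ)) =
      RatFunc.X + (κ : RatFunc ℂ) := by
    rw [map_add, RatFunc.algebraMap_X]
    congr 1
    rw [Polynomial.C_eq_natCast, map_natCast]
  have e1 : algebraMap (Polynomial ℂ) (RatFunc ℂ) Polynomial.X *
      shR (κ : ℂ) (algebraMap (Polynomial ℂ) (RatFunc ℂ) b * R) =
      algebraMap (Polynomial ℂ) (RatFunc ℂ) ((Polynomial.X + Polynomial.C (κ : ℂ)) *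
        (p - b.comp (Polynomial.X + Polynomial.C (κ : ℂ))) +
        Polynomial.X * b.comp (Polynomial.X + Polynomial.C (κ : ℂ))) := by
    rw [map_mul (shR (κ : ℂ)), shR_poly, map_add, map_mul, map_mul, map_sub, c, ← hp,
      RatFunc.algebraMap_X]
    unfold TFI at h2
    linear_combination (- algebraMap (Polynomial ℂ) (RatFunc ℂ)
      (b.comp (Polynomial.X + Polynomial.C (κ : ℂ)))) * h2
  have e2 := congrArg (shR (-(κ : ℂ))) e1
  rw [map_mul (shR (-(κ : ℂ))), shR_shR, shR_poly, shR_poly] at e2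
  set P : Polynomial ℂ := ((Polynomial.X + Polynomial.C (κ : ℂ)) *
        (p - b.comp (Polynomial.X + Polynomial.C (κ : ℂ))) +
        Polynomial.X * b.comp (Polynomial.X + Polynomial.C (κ : ℂ))).comp
        (Polynomial.X + Polynomial.C (-(κ : ℂ))) with hP
  rw [Polynomial.X_comp] at e2
  obtain ⟨p₀, q, hq, h3⟩ := reg_nat hR κ
  have e3 : (Polynomial.X + Polynomial.C (-(κ : ℂ))) * (b * p₀) = P * q := by
    apply RatFunc.algebraMap_injective ℂ
    rw [map_mul, map_mul, map_mul, ← h3, ← e2]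
    ring
  have e4 := congrArg (Polynomial.eval (κ : ℂ)) e3
  rw [Polynomial.eval_mul, Polynomial.eval_mul (p := P) (q := q), Polynomial.eval_add,
    Polynomial.eval_X, Polynomial.eval_C, add_neg_cancel, zero_mul] at e4
  have e5 : P.IsRoot (κ : ℂ) := by
    rcases mul_eq_zero.1 e4.symm with h5 | h5
    · exact h5
    · exact absurd h5 hq
  obtain ⟨P', hP'⟩ := Polynomial.dvd_iff_isRoot.2 e5
  refine ⟨P', ?_⟩
  have e6 : (Polynomial.X + Polynomial.C (-(κ : ℂ)) : Polynomial ℂ) =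
      Polynomial.X - Polynomial.C (κ : ℂ) := by
    rw [Polynomial.C_neg, sub_eq_add_neg]
  rw [e6, hP', map_mul] at e2
  refine mul_left_cancel₀ ?_ e2
  exact ne0 (s := (κ : ℂ) + 1) (by simp)

end

end Pool.Agent.L5helper37.QI
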